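import Mathlib
import Pool.Agent.Q37.E545.E1
import Pool.Agent.Q37.E545.E2
import Pool.Agent.Q37.E545.E3

/-!
# MP_545343_nt, Q1: the equations `(E₁)`, `(E₂)`, `(E₃)` have no solutions

None of the three Pillai type equations
`((d ^ x + 1) ^ s + 1) ^ t - d ^ y = 2`, `d ^ y - ((d ^ x - 1) ^ s - 1) ^ t = 2`,
`(d ^ x + 1) ^ s - (d ^ y - 1) ^ m = 2` has a solution in integers `d, x, y, s, t, m ≥ 2` with `x ≠ y`.

`(E₁)` is elementary. For `(E₂)` and `(E₃)` congruences show that one exponent is divisible by a large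
number; together with a lower bound for linear forms in two logarithms (`Pool.Agent.H440R2.lfl_core`)
this leaves a finite list of `(d, x, y)` (or `(d, x, s)`), and each of them is excluded by congruences
modulo small primes.
-/

set_option autoImplicit false

namespace Pool.Agent.Results.MP_545343_nt.NoSolutions

open Pool.Agent.Q37.E545

theorem result :
    (∀ (d : ℤ) (x y s t : ℕ), 2 ≤ d → 2 ≤ x → 2 ≤ y → 2 ≤ s → 2 ≤ t → x ≠ y →
      ((d ^ x + 1) ^ s + 1) ^ t - d ^ y ≠ 2) ∧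
    (∀ (d : ℤ) (x y s t : ℕ), 2 ≤ d → 2 ≤ x → 2 ≤ y → 2 ≤ s → 2 ≤ t → x ≠ y →
      d ^ y - ((d ^ x - 1) ^ s - 1) ^ t ≠ 2) ∧
    (∀ (d : ℤ) (x y s m : ℕ), 2 ≤ d → 2 ≤ x → 2 ≤ y → 2 ≤ s → 2 ≤ m → x ≠ y →
      (d ^ x + 1) ^ s - (d ^ y - 1) ^ m ≠ 2) := by
  refine ⟨?_, ?_, ?_⟩
  · intro d x y s t hd hx hy hs ht _ h
    lift d to ℕ using (by linarith)
    have hd' : 2 ≤ d := by exact_mod_cast hd
    apply e1_none d x y s t hd' hx hy hs ht
    have h' : (((d : ℤ) ^ x + 1) ^ s + 1) ^ t = (d : ℤ) ^ y + 2 := by linarith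
    exact_mod_cast h'
  · intro d x y s t hd hx hy hs ht _ h
    lift d to ℕ using (by linarith)
    have hd' : 2 ≤ d := by exact_mod_cast hd
    apply e2_none d x y s t hd' hx hy hs ht
    have h1 : 2 ≤ d ^ x := by
      calc 2 ≤ d := hd'
        _ = d ^ 1 := (pow_one d).symm
        _ ≤ d ^ x := Nat.pow_le_pow_right (by omega) (by omega)
    have h2 : 1 ≤ (d ^ x - 1) ^ s := Nat.one_le_pow _ _ (by omega)
    have h' : (d : ℤ) ^ y = (((d : ℤ) ^ x - 1) ^ s - 1) ^ t + 2 := by linarith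
    have h3 : ((d ^ y : ℕ) : ℤ) = ((((d ^ x - 1) ^ s - 1) ^ t + 2 : ℕ) : ℤ) := by
      push_cast [Nat.cast_sub h2, Nat.cast_sub (show 1 ≤ d ^ x by omega)]
      exact h'
    exact_mod_cast h3
  · intro d x y s m hd hx hy hs hm hxy h
    lift d to ℕ using (by linarith)
    have hd' : 2 ≤ d := by exact_mod_cast hd
    apply e3_none d x y s m hd' hx hy hs hm hxy
    have h1 : 1 ≤ d ^ y := Nat.one_le_pow _ _ (by omega)
    have h' : ((d : ℤ) ^ x + 1) ^ s = ((d : ℤ) ^ y - 1) ^ m + 2 := by linarith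
    have h3 : (((d ^ x + 1) ^ s : ℕ) : ℤ) = (((d ^ y - 1) ^ m + 2 : ℕ) : ℤ) := by
      push_cast [Nat.cast_sub h1]
      exact h'
    exact_mod_cast h3

end Pool.Agent.Results.MP_545343_nt.NoSolutions
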